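import Pool.Agent.Helper11.LV.Defs

/-!
# Project LV (MP_a499ba_nt): blocks A2 (sum over the smooth numbers) and A3 (the two Euler products)
-/

set_option autoImplicit false

namespace Pool.Agent.Helper38.LV

open Finset Pool.Agent.Helper11.LV

theorem pr_eq (y : ℕ) : Nat.primesBelow (y + 1) = Pr y := by
  ext p
  rw [mem_Pr, Nat.mem_primesBelow]
  constructor
  · rintro ⟨h1, h2⟩
    exact ⟨h2, by omega⟩
  · rintro ⟨h1, h2⟩
    exact ⟨by omega, h1⟩

theorem mem_sm {y n : ℕ} : n ∈ Nat.smoothNumbers (y + 1) ↔ 1 ≤ n ∧ Smo y n := by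
  rw [Nat.mem_smoothNumbers']
  constructor
  · intro h
    refine ⟨?_, fun p hp hd => ?_⟩
    · rcases Nat.eq_zero_or_pos n with h0 | h0
      · exfalso
        subst h0
        obtain ⟨p, hp1, hp2⟩ := Nat.exists_infinite_primes (y + 1)
        have := h p hp2 (dvd_zero _)
        omega
      · exact h0
    · have := h p hp hd
      omega
  · rintro ⟨h1, h2⟩ p hp hd
    have := h2 p hp hd
    omega

/-- `k ↦ k ^ (-1/2)` as a homomorphism -/
noncomputable def gh : ℕ →* ℝ where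
  toFun n := (n : ℝ) ^ (-(1 / 2 : ℝ))
  map_one' := by simp
  map_mul' m n := by
    simp only [Nat.cast_mul]
    rw [Real.mul_rpow (Nat.cast_nonneg _) (Nat.cast_nonneg _)]

theorem gh_apply (n : ℕ) : gh n = (n : ℝ) ^ (-(1 / 2 : ℝ)) := rfl

theorem gh_nonneg (n : ℕ) : 0 ≤ gh n := by
  rw [gh_apply]; positivity

theorem gh_le {p : ℕ} (hp : 2 ≤ p) : gh p ≤ 3 / 4 := by
  rw [gh_apply]
  have h2 : (p : ℝ) ^ (-(1 / 2 : ℝ)) ≤ (2 : ℝ) ^ (-(1 / 2 : ℝ)) := by
    apply Real.rpow_le_rpow_of_nonpos (by norm_num)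
    · exact_mod_cast hp
    · norm_num
  refine h2.trans ?_
  rw [Real.rpow_neg (by norm_num), ← Real.sqrt_eq_rpow]
  have h3 : (4 / 3 : ℝ) ≤ Real.sqrt 2 := by
    apply Real.le_sqrt_of_sq_le
    norm_num
  have h4 : (0 : ℝ) < Real.sqrt 2 := by positivity
  rw [inv_le_comm₀ h4 (by norm_num)]
  norm_num
  linarith

theorem fac_le {x : ℝ} (h0 : 0 ≤ x) (h1 : x ≤ 3 / 4) : (1 - x)⁻¹ ≤ Real.exp (4 * x) := by
  have h2 : 0 < 1 - x := by linarith
  have h3 : (1 - x)⁻¹ = 1 + x / (1 - x) := by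
    field_simp
    ring
  rw [h3]
  have h4 : x / (1 - x) ≤ 4 * x := by
    rw [div_le_iff₀ h2]
    nlinarith
  have h5 := Real.add_one_le_exp (4 * x)
  linarith

theorem sum_sqrt (y : ℕ) : ∑ k ∈ Finset.Icc 1 y, (k : ℝ) ^ (-(1 / 2 : ℝ)) ≤ 2 * Real.sqrt y := by
  induction y with
  | zero => simp
  | succ n ih =>
    rw [Finset.sum_Icc_succ_top (by omega)]
    have h1 : ((n + 1 : ℕ) : ℝ) ^ (-(1 / 2 : ℝ)) = 1 / Real.sqrt ((n + 1 : ℕ) : ℝ) := by
      rw [Real.rpow_neg (by positivity), ← Real.sqrt_eq_rpow, one_div]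
    rw [h1]
    have h2 : (0 : ℝ) < Real.sqrt ((n + 1 : ℕ) : ℝ) := by
      apply Real.sqrt_pos.mpr
      positivity
    have h3 : Real.sqrt (n : ℝ) ≤ Real.sqrt ((n + 1 : ℕ) : ℝ) := Real.sqrt_le_sqrt (by push_cast; linarith)
    have h4 : Real.sqrt ((n + 1 : ℕ) : ℝ) ^ 2 = (n : ℝ) + 1 := by
      rw [Real.sq_sqrt (by positivity)]
      push_cast
      ring
    have h5 : Real.sqrt (n : ℝ) ^ 2 = (n : ℝ) := Real.sq_sqrt (by positivity)
    have h0 : 0 ≤ Real.sqrt (n : ℝ) := Real.sqrt_nonneg _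
    have h6 : 1 / Real.sqrt ((n + 1 : ℕ) : ℝ) ≤ 2 * (Real.sqrt ((n + 1 : ℕ) : ℝ) - Real.sqrt (n : ℝ)) := by
      rw [div_le_iff₀ h2]
      nlinarith [sq_nonneg (Real.sqrt ((n + 1 : ℕ) : ℝ) - Real.sqrt (n : ℝ))]
    linarith

/-- the Euler product of the weights -/
noncomputable def Gy (y : ℕ) : ℝ := ∏ p ∈ Pr y, (1 - gh p)⁻¹

theorem Gy_le (y : ℕ) : Gy y ≤ Real.exp (8 * Real.sqrt y) := by
  have h1 : Gy y ≤ ∏ p ∈ Pr y, Real.exp (4 * gh p) := by
    apply Finset.prod_le_prod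
    · intro p hp
      have := gh_le (mem_Pr.mp hp).1.two_le
      apply inv_nonneg.mpr
      linarith
    · intro p hp
      exact fac_le (gh_nonneg p) (gh_le (mem_Pr.mp hp).1.two_le)
  refine h1.trans ?_
  rw [← Real.exp_sum]
  apply Real.exp_le_exp.mpr
  rw [← Finset.mul_sum]
  have h2 : ∑ p ∈ Pr y, gh p ≤ ∑ p ∈ Finset.Icc 1 y, gh p :=
    Finset.sum_le_sum_of_subset_of_nonneg (Finset.filter_subset _ _) (fun i _ _ => gh_nonneg i)
  have h3 : ∑ p ∈ Finset.Icc 1 y, gh p ≤ 2 * Real.sqrt y := sum_sqrt y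
  linarith

theorem g_sum (y : ℕ) : HasSum ((Nat.smoothNumbers (y + 1)).indicator (fun n => gh n)) (Gy y) := by
  have h := (EulerProduct.summable_and_hasSum_smoothNumbers_prod_primesBelow_geometric (f := gh)
    (fun {p} hp => by
      rw [Real.norm_eq_abs, abs_of_nonneg (gh_nonneg p)]
      exact (gh_le hp.two_le).trans_lt (by norm_num)) (y + 1)).2
  rw [pr_eq] at h
  exact (hasSum_subtype_iff_indicator (f := fun n => gh n) (s := Nat.smoothNumbers (y + 1))).mp h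

/-- A2 -/
theorem smooth_sum (y N : ℕ) : ∑ k ∈ sS y N, (k : ℝ) ^ (-(1 / 2 : ℝ)) ≤ Real.exp (8 * Real.sqrt y) := by
  refine le_trans ?_ (Gy_le y)
  have h1 : ∑ k ∈ sS y N, (k : ℝ) ^ (-(1 / 2 : ℝ)) =
      ∑ k ∈ sS y N, (Nat.smoothNumbers (y + 1)).indicator (fun n => gh n) k := by
    apply Finset.sum_congr rfl
    intro k hk
    have hk2 := mem_sS.mp hk
    rw [Set.indicator_of_mem (mem_sm.mpr ⟨hk2.1, hk2.2.2⟩)]
    rfl
  rw [h1]
  exact sum_le_hasSum _ (fun i _ => Set.indicator_nonneg (fun n _ => gh_nonneg n) i) (g_sum y)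

/-- the tail of a series over the smooth numbers -/
theorem tail {f : ℕ → ℂ} {F : ℂ} {d : ℝ} (hd : 0 < d) (y N : ℕ) (hN : 1 ≤ N)
    (hF : HasSum ((Nat.smoothNumbers (y + 1)).indicator f) F)
    (hf : ∀ n : ℕ, 1 ≤ n → ‖f n‖ ≤ (n : ℝ) ^ (-(1 / 2 + d))) :
    ‖∑ k ∈ sS y N, f k - F‖ ≤ (N : ℝ) ^ (-d) * Real.exp (8 * Real.sqrt y) := by
  classical
  have h1 : HasSum ((sS y N : Set ℕ).indicator f) (∑ k ∈ sS y N, f k) := by
    have h : HasSum ((sS y N : Set ℕ).indicator f) (∑ b ∈ sS y N, (sS y N : Set ℕ).indicator f b) :=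
      hasSum_sum_of_ne_finset_zero (fun b hb => Set.indicator_of_notMem (by simpa using hb) _)
    have h2 : ∑ b ∈ sS y N, (sS y N : Set ℕ).indicator f b = ∑ k ∈ sS y N, f k :=
      Finset.sum_congr rfl (fun k hk => Set.indicator_of_mem (by simpa using hk) _)
    rwa [h2] at h
  have h2 := h1.sub hF
  have h3 := (g_sum y).mul_left ((N : ℝ) ^ (-d))
  have hNd : (0 : ℝ) ≤ (N : ℝ) ^ (-d) := by positivity
  have h4 := h2.norm_le_of_bounded h3 (fun k => by
    by_cases hs : k ∈ Nat.smoothNumbers (y + 1)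
    · have hs2 := mem_sm.mp hs
      rw [Set.indicator_of_mem hs, Set.indicator_of_mem hs]
      by_cases hk : k ≤ N
      · rw [Set.indicator_of_mem (by
          show k ∈ (sS y N : Set ℕ)
          exact_mod_cast mem_sS.mpr ⟨hs2.1, hk, hs2.2⟩), sub_self, norm_zero]
        exact mul_nonneg hNd (gh_nonneg k)
      · rw [Set.indicator_of_notMem (by
          intro h
          exact hk (mem_sS.mp (by exact_mod_cast h)).2.1), zero_sub, norm_neg]
        refine (hf k hs2.1).trans ?_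
        have hk0 : (0 : ℝ) < k := by exact_mod_cast hs2.1
        rw [neg_add, Real.rpow_add hk0, mul_comm, gh_apply]
        apply mul_le_mul_of_nonneg_right _ (by positivity)
        apply Real.rpow_le_rpow_of_nonpos (by exact_mod_cast hN)
        · exact_mod_cast (not_le.mp hk).le
        · linarith
    · rw [Set.indicator_of_notMem hs, Set.indicator_of_notMem hs, Set.indicator_of_notMem (by
          intro h
          have h5 := mem_sS.mp (show k ∈ sS y N by exact_mod_cast h)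
          exact hs (mem_sm.mpr ⟨h5.1, h5.2.2⟩))]
      simp)
  exact h4.trans (mul_le_mul_of_nonneg_left (Gy_le y) hNd)

theorem norm_le {χ : ℕ → ℂ} (hχ : CMB χ) {s : ℂ} {d : ℝ} (hs : s.re = 1 / 2 + d) {c : ℂ} (hc : ‖c‖ ≤ 1) {n : ℕ}
    (hn : 1 ≤ n) : ‖(c * χ n) * (n : ℂ) ^ (-s)‖ ≤ (n : ℝ) ^ (-(1 / 2 + d)) := by
  rw [norm_mul, norm_mul, Complex.norm_natCast_cpow_of_pos (by omega), Complex.neg_re, hs]
  have h1 : ‖c‖ * ‖χ n‖ ≤ 1 := mul_le_one₀ hc (norm_nonneg _) (hχ.le n)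
  have h2 : (0 : ℝ) ≤ (n : ℝ) ^ (-(1 / 2 + d)) := by positivity
  nlinarith

theorem mu_norm (n : ℕ) : ‖((ArithmeticFunction.moebius n : ℤ) : ℂ)‖ ≤ 1 := by
  rw [Complex.norm_intCast]
  exact_mod_cast ArithmeticFunction.abs_moebius_le_one

/-- the completely multiplicative function of `λ χ` -/
noncomputable def lh {χ : ℕ → ℂ} (hχ : CMB χ) {s : ℂ} (hs : s ≠ 0) : ℕ →* ℂ where
  toFun n := laf χ n * (n : ℂ) ^ (-s)
  map_one' := by
    simp [laf, hχ.one]
  map_mul' m n := by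
    rcases Nat.eq_zero_or_pos m with h | h
    · subst h
      simp [Complex.zero_cpow (neg_ne_zero.mpr hs)]
    · rcases Nat.eq_zero_or_pos n with h' | h'
      · subst h'
        simp [Complex.zero_cpow (neg_ne_zero.mpr hs)]
      · unfold laf
        rw [ArithmeticFunction.cardFactors_mul h.ne' h'.ne', hχ.mul, pow_add, Nat.cast_mul,
          Complex.natCast_mul_natCast_cpow]
        ring

theorem FL_sum {χ : ℕ → ℂ} (hχ : CMB χ) {s : ℂ} {d : ℝ} (hd : 0 < d) (hs : s.re = 1 / 2 + d) (y : ℕ) :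
    HasSum ((Nat.smoothNumbers (y + 1)).indicator (fun n => laf χ n * (n : ℂ) ^ (-s))) (FL χ s y) := by
  have hs0 : s ≠ 0 := by
    intro h
    rw [h] at hs
    simp at hs
    linarith
  have h := (EulerProduct.summable_and_hasSum_smoothNumbers_prod_primesBelow_geometric (f := lh hχ hs0)
    (fun {p} hp => by
      have h1 : ‖(lh hχ hs0) p‖ ≤ (p : ℝ) ^ (-(1 / 2 + d)) :=
        norm_le hχ hs (c := (-1 : ℂ) ^ ArithmeticFunction.cardFactors p) (by simp) hp.one_le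
      refine h1.trans_lt ?_
      apply Real.rpow_lt_one_of_one_lt_of_neg
      · exact_mod_cast hp.one_lt
      · linarith) (y + 1)).2
  rw [pr_eq] at h
  have h2 : ∏ p ∈ Pr y, (1 - (lh hχ hs0) p)⁻¹ = FL χ s y := by
    unfold FL
    apply Finset.prod_congr rfl
    intro p hp
    have hp1 := (mem_Pr.mp hp).1
    congr 1
    show 1 - laf χ p * (p : ℂ) ^ (-s) = _
    unfold laf
    rw [ArithmeticFunction.cardFactors_apply_prime hp1]
    ring
  rw [h2] at h
  exact (hasSum_subtype_iff_indicator (f := fun n => laf χ n * (n : ℂ) ^ (-s)) (s := Nat.smoothNumbers (y + 1))).mp h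

theorem FM_sum {χ : ℕ → ℂ} (hχ : CMB χ) (s : ℂ) (y : ℕ) :
    HasSum ((Nat.smoothNumbers (y + 1)).indicator (fun n => muf χ n * (n : ℂ) ^ (-s))) (FM χ s y) := by
  have hz : ∀ {p : ℕ}, p.Prime → ∀ n : ℕ, n ∉ Finset.range 2 → muf χ (p ^ n) * ((p ^ n : ℕ) : ℂ) ^ (-s) = 0 := by
    intro p hp n hn
    have hn2 : 2 ≤ n := by
      rw [Finset.mem_range] at hn
      omega
    unfold muf
    rw [ArithmeticFunction.moebius_apply_prime_pow hp (by omega), if_neg (by omega)]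
    simp
  have h := (EulerProduct.summable_and_hasSum_smoothNumbers_prod_primesBelow_tsum
    (f := fun n : ℕ => muf χ n * (n : ℂ) ^ (-s))
    (by simp [muf, hχ.one])
    (fun {m n} hmn => by
      show muf χ (m * n) * ((m * n : ℕ) : ℂ) ^ (-s) = (muf χ m * (m : ℂ) ^ (-s)) * (muf χ n * (n : ℂ) ^ (-s))
      unfold muf
      rw [ArithmeticFunction.isMultiplicative_moebius.map_mul_of_coprime hmn, hχ.mul, Nat.cast_mul,
        Complex.natCast_mul_natCast_cpow]
      push_cast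
      ring)
    (fun {p} hp => by
      apply summable_of_ne_finset_zero (s := Finset.range 2)
      intro n hn
      rw [hz hp n hn, norm_zero]) (y + 1)).2
  rw [pr_eq] at h
  have h2 : ∏ p ∈ Pr y, ∑' n : ℕ, muf χ (p ^ n) * ((p ^ n : ℕ) : ℂ) ^ (-s) = FM χ s y := by
    unfold FM
    apply Finset.prod_congr rfl
    intro p hp
    have hp1 := (mem_Pr.mp hp).1
    rw [tsum_eq_sum (hz hp1), Finset.sum_range_succ, Finset.sum_range_one]
    unfold muf
    simp only [pow_zero, pow_one]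
    rw [ArithmeticFunction.moebius_apply_prime hp1, ArithmeticFunction.moebius_apply_one, hχ.one]
    simp only [Nat.cast_one, Complex.one_cpow]
    push_cast
    ring
  rw [h2] at h
  exact (hasSum_subtype_iff_indicator (f := fun n => muf χ n * (n : ℂ) ^ (-s)) (s := Nat.smoothNumbers (y + 1))).mp h

/-- A3 -/
theorem FM_lim {χ : ℕ → ℂ} (hχ : CMB χ) {s : ℂ} {d : ℝ} (hd : 0 < d) (hs : s.re = 1 / 2 + d) (y N : ℕ) (hN : 1 ≤ N) :
    ‖∑ k ∈ sS y N, muf χ k * (k : ℂ) ^ (-s) - FM χ s y‖ ≤ (N : ℝ) ^ (-d) * Real.exp (8 * Real.sqrt y) :=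
  tail hd y N hN (FM_sum hχ s y) (fun n hn => norm_le hχ hs (mu_norm n) hn)

theorem FL_lim {χ : ℕ → ℂ} (hχ : CMB χ) {s : ℂ} {d : ℝ} (hd : 0 < d) (hs : s.re = 1 / 2 + d) (y N : ℕ) (hN : 1 ≤ N) :
    ‖∑ k ∈ sS y N, laf χ k * (k : ℂ) ^ (-s) - FL χ s y‖ ≤ (N : ℝ) ^ (-d) * Real.exp (8 * Real.sqrt y) :=
  tail hd y N hN (FL_sum hχ hd hs y)
    (fun n hn => norm_le hχ hs (c := (-1 : ℂ) ^ ArithmeticFunction.cardFactors n) (by simp) hn)

end Pool.Agent.Helper38.LV
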